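import Pool.Agent.H6.GS2.Bas
import Mathlib.Analysis.InnerProductSpace.MeanErgodic

/-!
# MP_c59857_nt, theorem (WN): an almost periodic sequence whose Fourier means vanish is zero
-/

set_option autoImplicit false

namespace Pool.Agent.H6.WN

open Finset Filter Topology Pool.Agent.H6.N4D

/-- many common near periods -/
lemma near_periods (R : ℕ) (φ : ℕ → ℝ) (δ : ℝ) (hδ : 0 < δ) : ∃ N : ℕ, 0 < N ∧ ∀ M : ℕ,
    ∃ S : Finset ℕ, S ⊆ range M ∧ M ≤ N * S.card ∧ ∀ t ∈ S, ∀ r < R, nd (φ r * t) ≤ δ := by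
  classical
  set K : ℕ := ⌈1 / δ⌉₊ with hK
  have hK0 : 0 < K := Nat.ceil_pos.2 (by positivity)
  have hKr : (0 : ℝ) < K := by exact_mod_cast hK0
  have hKδ : 1 / (K : ℝ) ≤ δ := by
    rw [div_le_iff₀ hKr]
    have := Nat.le_ceil (1 / δ)
    rw [div_le_iff₀ hδ] at this
    linarith
  have hcell : ∀ x : ℝ, (⌊Int.fract x * K⌋₊) < K := by
    intro x
    rw [Nat.floor_lt (by have := Int.fract_nonneg x; positivity)]
    have := Int.fract_lt_one x
    nlinarith
  set c : ℕ → (Fin R → Fin K) := fun t r => ⟨⌊Int.fract (φ r * t) * K⌋₊, hcell _⟩ with hc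
  have : Nonempty (Fin R → Fin K) := ⟨fun _ => ⟨0, hK0⟩⟩
  refine ⟨K ^ R, Nat.pow_pos hK0, fun M => ?_⟩
  obtain ⟨y, _, hy⟩ := Finset.exists_max_image (univ : Finset (Fin R → Fin K))
    (fun y => ((range M).filter (fun t => c t = y)).card) univ_nonempty
  set F := (range M).filter (fun t => c t = y) with hF
  have hM : M ≤ K ^ R * F.card := by
    have h1 : M = ∑ z : Fin R → Fin K, ((range M).filter (fun t => c t = z)).card := by
      have := Finset.card_eq_sum_card_fiberwise (f := c) (s := range M)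
        (t := (univ : Finset (Fin R → Fin K))) (fun x _ => Finset.mem_coe.2 (mem_univ _))
      rwa [card_range] at this
    calc M = ∑ z : Fin R → Fin K, ((range M).filter (fun t => c t = z)).card := h1
      _ ≤ ∑ _z : Fin R → Fin K, F.card := Finset.sum_le_sum fun z _ => hy z (mem_univ _)
      _ = K ^ R * F.card := by simp
  rcases F.eq_empty_or_nonempty with he | hne
  · refine ⟨∅, by simp, ?_, by simp⟩
    rw [he] at hM
    simpa using hM
  · set t₀ := F.min' hne with ht₀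
    have h0 : t₀ ∈ F := F.min'_mem hne
    have hmin : ∀ t ∈ F, t₀ ≤ t := fun t ht => F.min'_le t ht
    refine ⟨F.image (fun t => t - t₀), ?_, ?_, ?_⟩
    · intro s hs
      obtain ⟨t, ht, rfl⟩ := mem_image.1 hs
      have := mem_range.1 (mem_filter.1 ht).1
      exact mem_range.2 (by omega)
    · rw [card_image_of_injOn]
      · exact hM
      · intro a ha b hb hab
        have h1 := hmin a (by simpa using ha)
        have h2 := hmin b (by simpa using hb)
        simp only at hab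
        omega
    · intro s hs r hr
      obtain ⟨t, ht, rfl⟩ := mem_image.1 hs
      have h1 := (mem_filter.1 ht).2
      have h2 := (mem_filter.1 h0).2
      have h3 : c t ⟨r, hr⟩ = c t₀ ⟨r, hr⟩ := by rw [h1, h2]
      have h4 : ⌊Int.fract (φ r * t) * K⌋₊ = ⌊Int.fract (φ r * t₀) * K⌋₊ := by
        have := congrArg Fin.val h3
        simpa [hc] using this
      set x := φ r * (t : ℝ) with hx
      set x₀ := φ r * (t₀ : ℝ) with hx₀
      have hfx : 0 ≤ Int.fract x * K := by have := Int.fract_nonneg x; positivity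
      have hfx₀ : 0 ≤ Int.fract x₀ * K := by have := Int.fract_nonneg x₀; positivity
      have e1 := Nat.floor_le hfx
      have e2 := Nat.lt_floor_add_one (Int.fract x * K)
      have e3 := Nat.floor_le hfx₀
      have e4 := Nat.lt_floor_add_one (Int.fract x₀ * K)
      rw [h4] at e1 e2
      have h5 : |Int.fract x * K - Int.fract x₀ * K| ≤ 1 := by
        rw [abs_le]; constructor <;> linarith
      have h6 : |Int.fract x - Int.fract x₀| ≤ 1 / K := by
        have h6' : |Int.fract x - Int.fract x₀| * K ≤ 1 := by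
          calc |Int.fract x - Int.fract x₀| * K = |Int.fract x - Int.fract x₀| * |(K : ℝ)| := by
                rw [abs_of_pos hKr]
            _ = |Int.fract x * K - Int.fract x₀ * K| := by rw [← abs_mul, sub_mul]
            _ ≤ 1 := h5
        rwa [le_div_iff₀ hKr]
      have h7 : φ r * ((t - t₀ : ℕ) : ℝ) = x - x₀ := by
        rw [Nat.cast_sub (hmin t ht)]
        rw [hx, hx₀]; ring
      rw [h7]
      have h8 : x - x₀ = (Int.fract x - Int.fract x₀) + ((⌊x⌋ - ⌊x₀⌋ : ℤ) : ℝ) := by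
        push_cast
        have := Int.fract_add_floor x
        have := Int.fract_add_floor x₀
        linarith
      rw [h8, nd_add_int]
      exact (nd_le_abs _).trans (h6.trans hKδ)

/-- (d) An almost periodic sequence whose Fourier means vanish is zero. -/
theorem apz_gen (g : ℕ → ℂ) (B : ℝ) (hb : ∀ k, ‖g k‖ ≤ B)
    (hF : ∀ φ : ℝ, Tendsto (fun M : ℕ => (∑ k ∈ range M, g k * ee (-(φ * k))) / M) atTop (𝓝 0))
    (hA : ∀ ε : ℝ, 0 < ε → ∃ (R : ℕ) (a : ℕ → ℂ) (φ : ℕ → ℝ), ∀ k : ℕ, 1 ≤ k →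
      ‖g k - ∑ r ∈ range R, a r * ee (φ r * k)‖ ≤ ε) : ∀ k : ℕ, 1 ≤ k → g k = 0 := by
  intro k₀ hk₀
  by_contra hne
  set c := ‖g k₀‖ with hc
  have hc0 : 0 < c := norm_pos_iff.2 hne
  have hB0 : 0 ≤ B := (norm_nonneg _).trans (hb 0)
  obtain ⟨R, a, φ, hQ⟩ := hA (c / 10) (by positivity)
  set A := ∑ r ∈ range R, ‖a r‖ with hAdef
  have hA0 : 0 ≤ A := Finset.sum_nonneg fun _ _ => norm_nonneg _
  have hπ := Real.pi_pos
  set δ := c / 10 / (2 * Real.pi * (A + 1)) with hδ
  have hδ0 : 0 < δ := by positivity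
  obtain ⟨N, hN, hS⟩ := near_periods R φ δ hδ0
  have hNr : (0 : ℝ) < N := by exact_mod_cast hN
  set η := c ^ 2 / (32 * N) with hη
  have hη0 : 0 < η := by positivity
  obtain ⟨R', a', φ', hQ'⟩ := hA (2 * η / (B + 1)) (by positivity)
  set Q' : ℕ → ℂ := fun k => ∑ r ∈ range R', a' r * ee (φ' r * k) with hQ'd
  set D : ℝ := B ^ 2 + B * ‖Q' 0‖ with hD
  have hD0 : 0 ≤ D := by positivity
  -- the means against the polynomial
  have hT : Tendsto (fun M : ℕ => (∑ k ∈ range M, g k * (starRingEnd ℂ) (Q' k)) / M) atTop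
      (𝓝 0) := by
    have e1 : ∀ M : ℕ, (∑ k ∈ range M, g k * (starRingEnd ℂ) (Q' k)) / (M : ℂ) =
        ∑ r ∈ range R', (starRingEnd ℂ) (a' r) *
          ((∑ k ∈ range M, g k * ee (-(φ' r * k))) / M) := by
      intro M
      simp only [hQ'd, map_sum, map_mul, Pool.Agent.H6.GS2.conj_ee, mul_sum, sum_div]
      rw [Finset.sum_comm]
      apply Finset.sum_congr rfl
      intro r _
      apply Finset.sum_congr rfl
      intro k _
      ring
    simp only [e1]
    have e2 : (0 : ℂ) = ∑ r ∈ range R', (starRingEnd ℂ) (a' r) * 0 := by simp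
    rw [e2]
    exact tendsto_finsetSum _ fun r _ => (hF (φ' r)).const_mul _
  obtain ⟨M₁, hM₁⟩ := (Metric.tendsto_atTop.1 hT) η hη0
  -- choice of the length
  set M : ℕ := max (max k₀ M₁) (max 1 ⌈D / η⌉₊) with hM
  have hMk : k₀ ≤ M := (le_max_left _ _).trans (le_max_left _ _)
  have hMM : M₁ ≤ M := (le_max_right _ _).trans (le_max_left _ _)
  have hM1 : 1 ≤ M := (le_max_left _ _).trans (le_max_right _ _)
  have hMD : D ≤ η * M := by
    have h1 : ⌈D / η⌉₊ ≤ M := (le_max_right _ _).trans (le_max_right _ _)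
    have h2 : D / η ≤ M := (Nat.le_ceil _).trans (by exact_mod_cast h1)
    rw [div_le_iff₀ hη0] at h2
    linarith
  have hMr : (1 : ℝ) ≤ M := by exact_mod_cast hM1
  set M' := k₀ + M with hM'
  have hM'r : (M' : ℝ) ≤ 2 * M := by
    have : M' ≤ 2 * M := by omega
    exact_mod_cast this
  have hM'0 : (0 : ℝ) < M' := by
    have : 0 < M' := by omega
    exact_mod_cast this
  obtain ⟨S, hSr, hSc, hSn⟩ := hS M
  -- lower bound
  have hlow : ∀ t ∈ S, c / 2 ≤ ‖g (k₀ + t)‖ := by
    intro t ht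
    have h1 := hQ k₀ hk₀
    have h2 := hQ (k₀ + t) (by omega)
    have h3 : ‖(∑ r ∈ range R, a r * ee (φ r * ((k₀ + t : ℕ) : ℝ))) -
        ∑ r ∈ range R, a r * ee (φ r * (k₀ : ℝ))‖ ≤ c / 10 := by
      rw [← Finset.sum_sub_distrib]
      calc ‖∑ r ∈ range R, (a r * ee (φ r * ((k₀ + t : ℕ) : ℝ)) - a r * ee (φ r * (k₀ : ℝ)))‖
          ≤ ∑ r ∈ range R, ‖a r * ee (φ r * ((k₀ + t : ℕ) : ℝ)) - a r * ee (φ r * (k₀ : ℝ))‖ :=
            norm_sum_le _ _
        _ ≤ ∑ r ∈ range R, ‖a r‖ * (2 * Real.pi * δ) := by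
            apply Finset.sum_le_sum
            intro r hr
            rw [← mul_sub, norm_mul]
            apply mul_le_mul_of_nonneg_left _ (norm_nonneg _)
            refine (norm_ee_sub_le _ _).trans ?_
            apply mul_le_mul_of_nonneg_left _ (by positivity)
            have h4 : φ r * ((k₀ + t : ℕ) : ℝ) - φ r * (k₀ : ℝ) = φ r * t := by push_cast; ring
            rw [h4]
            exact hSn t ht r (mem_range.1 hr)
        _ = A * (2 * Real.pi * δ) := by rw [← Finset.sum_mul]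
        _ ≤ c / 10 := by
            rw [hδ]
            have h5 : A * (2 * Real.pi * (c / 10 / (2 * Real.pi * (A + 1)))) =
                c / 10 * (A / (A + 1)) := by field_simp
            rw [h5]
            have h6 : A / (A + 1) ≤ 1 := by rw [div_le_one (by linarith)]; linarith
            nlinarith
    have h4 : ‖g k₀ - g (k₀ + t)‖ ≤ 3 * (c / 10) := by
      set q₀ := ∑ r ∈ range R, a r * ee (φ r * (k₀ : ℝ)) with hq₀
      set q₁ := ∑ r ∈ range R, a r * ee (φ r * ((k₀ + t : ℕ) : ℝ)) with hq₁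
      have h5 : g k₀ - g (k₀ + t) = (g k₀ - q₀) - (g (k₀ + t) - q₁) - (q₁ - q₀) := by ring
      rw [h5]
      refine (norm_sub_le _ _).trans ?_
      have := norm_sub_le (g k₀ - q₀) (g (k₀ + t) - q₁)
      linarith
    have h5 : c ≤ ‖g (k₀ + t)‖ + ‖g k₀ - g (k₀ + t)‖ := by
      have := norm_add_le (g (k₀ + t)) (g k₀ - g (k₀ + t))
      rwa [add_sub_cancel] at this
    linarith
  have hsum1 : (S.card : ℝ) * (c ^ 2 / 4) ≤ ∑ k ∈ range M', ‖g k‖ ^ 2 := by
    calc (S.card : ℝ) * (c ^ 2 / 4) = ∑ t ∈ S, c ^ 2 / 4 := by rw [sum_const, nsmul_eq_mul]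
      _ ≤ ∑ t ∈ S, ‖g (k₀ + t)‖ ^ 2 := by
          apply Finset.sum_le_sum
          intro t ht
          have := hlow t ht
          nlinarith
      _ = ∑ k ∈ S.image (fun t => k₀ + t), ‖g k‖ ^ 2 := by
          rw [Finset.sum_image]
          intro x _ y _ hxy
          simp only at hxy
          omega
      _ ≤ ∑ k ∈ range M', ‖g k‖ ^ 2 := by
          apply Finset.sum_le_sum_of_subset_of_nonneg
          · intro k hk
            obtain ⟨t, ht, rfl⟩ := mem_image.1 hk
            have := mem_range.1 (hSr ht)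
            exact mem_range.2 (by omega)
          · intro _ _ _; positivity
  have hcard : 8 * η * M ≤ (S.card : ℝ) * (c ^ 2 / 4) := by
    have h1 : (M : ℝ) ≤ N * S.card := by exact_mod_cast hSc
    have h2 : 8 * η = c ^ 2 / 4 / N := by rw [hη]; field_simp; ring
    rw [h2, div_mul_eq_mul_div, div_le_iff₀ hNr]
    nlinarith [sq_nonneg c]
  -- upper bound
  have hsum2 : ∑ k ∈ range M', ‖g k‖ ^ 2 ≤
      (∑ k ∈ range M', g k * (starRingEnd ℂ) (Q' k)).re + 2 * η * M' + D := by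
    have h1 : ∀ k ∈ range M', ‖g k‖ ^ 2 ≤ (g k * (starRingEnd ℂ) (Q' k)).re + 2 * η +
        (if k = 0 then D else 0) := by
      intro k _
      have h2 : (g k * (starRingEnd ℂ) (g k)).re = ‖g k‖ ^ 2 := by
        rw [Complex.mul_conj']
        norm_cast
      have h3 : g k * (starRingEnd ℂ) (Q' k) = g k * (starRingEnd ℂ) (g k) -
          g k * (starRingEnd ℂ) (g k - Q' k) := by
        rw [map_sub]; ring
      have h4 : (g k * (starRingEnd ℂ) (g k - Q' k)).re ≤ B * ‖g k - Q' k‖ := by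
        refine (Complex.re_le_norm _).trans ?_
        rw [norm_mul, Complex.norm_conj]
        exact mul_le_mul_of_nonneg_right (hb k) (norm_nonneg _)
      rw [h3, Complex.sub_re, h2]
      by_cases hk : k = 0
      · subst hk
        rw [if_pos rfl]
        have h5 : ‖g 0 - Q' 0‖ ≤ B + ‖Q' 0‖ := (norm_sub_le _ _).trans (by linarith [hb 0])
        have h6 : B * ‖g 0 - Q' 0‖ ≤ B * (B + ‖Q' 0‖) := mul_le_mul_of_nonneg_left h5 hB0
        rw [hD]
        nlinarith
      · rw [if_neg hk]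
        have h5 := hQ' k (by omega)
        have h6 : B * ‖g k - Q' k‖ ≤ B * (2 * η / (B + 1)) := mul_le_mul_of_nonneg_left h5 hB0
        have h7 : B * (2 * η / (B + 1)) ≤ 2 * η := by
          rw [mul_div_assoc', div_le_iff₀ (by linarith)]
          nlinarith
        linarith
    refine (Finset.sum_le_sum h1).trans ?_
    rw [Finset.sum_add_distrib, Finset.sum_add_distrib, Complex.re_sum, sum_const, card_range,
      nsmul_eq_mul, Finset.sum_ite_eq']
    have h8 : (0 : ℕ) ∈ range M' := mem_range.2 (by omega)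
    rw [if_pos h8]
    linarith
  have hup : (∑ k ∈ range M', g k * (starRingEnd ℂ) (Q' k)).re ≤ η * M' := by
    have h1 := hM₁ M' (by omega)
    rw [dist_zero_right, norm_div, Complex.norm_natCast, div_lt_iff₀ hM'0] at h1
    exact (Complex.re_le_norm _).trans h1.le
  have hη2 : 0 < η * M := by positivity
  nlinarith

section Hilbert

variable {E : Type*} [NormedAddCommGroup E] [InnerProductSpace ℂ E] [CompleteSpace E]

/-- the twisted means of a vector orthogonal to the eigenvectors tend to zero -/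
theorem mean_zero (U : E →ₗᵢ[ℂ] E) (u : E)
    (hu : ∀ (v : E) (z : ℂ), ‖z‖ = 1 → U v = z • v → inner ℂ v u = 0) (φ : ℝ) :
    Tendsto (fun M : ℕ => (M : ℂ)⁻¹ • ∑ k ∈ range M, ee (-(φ * k)) • (U^[k]) u) atTop (𝓝 0) := by
  set f : E →L[ℂ] E := ee (-φ) • U.toContinuousLinearMap with hf
  have hfa : ∀ x, f x = ee (-φ) • U x := fun x => rfl
  have hf1 : ‖f‖ ≤ 1 := by
    apply ContinuousLinearMap.opNorm_le_bound _ zero_le_one
    intro x
    rw [hfa, norm_smul, norm_ee, U.norm_map]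
  have hit : ∀ k : ℕ, (f^[k]) u = ee (-(φ * k)) • (U^[k]) u := by
    intro k
    induction k with
    | zero =>
      have h0 : ee (0 : ℝ) = 1 := by
        have := ee_int 0
        simpa using this
      simp [h0]
    | succ k ih =>
      rw [Function.iterate_succ_apply', ih, hfa, Function.iterate_succ_apply', map_smul, smul_smul,
        ← ee_add]
      congr 2
      push_cast
      ring
  have h1 := f.tendsto_birkhoffAverage_orthogonalProjection hf1 u
  have h2 : (((f.eqLocus (1 : E →L[ℂ] E)).orthogonalProjectionOnto u : _) : E) = 0 := by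
    have h3 : u ∈ (f.eqLocus (1 : E →L[ℂ] E))ᗮ := by
      rw [Submodule.mem_orthogonal]
      intro v hv
      have h4 : f v = v := hv
      rw [hfa] at h4
      apply hu v (ee φ) (norm_ee _)
      have h5 : ee φ • (ee (-φ) • U v) = ee φ • v := by rw [h4]
      rw [smul_smul, ← ee_add] at h5
      have h6 : ee (φ + -φ) = 1 := by
        have := ee_int 0
        simpa using this
      rw [h6, one_smul] at h5
      exact h5
    rw [Submodule.orthogonalProjectionOnto_apply_of_mem_orthogonal h3]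
    rfl
  rw [h2] at h1
  refine h1.congr fun M => ?_
  unfold birkhoffAverage birkhoffSum
  congr 1
  apply Finset.sum_congr rfl
  intro k _
  exact hit k

/-- the Fourier means of the correlations -/
theorem corr_mean (U : E →ₗᵢ[ℂ] E) (u : E)
    (hu : ∀ (v : E) (z : ℂ), ‖z‖ = 1 → U v = z • v → inner ℂ v u = 0) (φ : ℝ) :
    Tendsto (fun M : ℕ => (∑ k ∈ range M, inner ℂ u ((U^[k]) u) * ee (-(φ * k))) / (M : ℂ)) atTop
      (𝓝 0) := by
  have h1 : Tendsto (fun M : ℕ => inner ℂ u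
      ((M : ℂ)⁻¹ • ∑ k ∈ range M, ee (-(φ * k)) • (U^[k]) u)) atTop (𝓝 (inner ℂ u (0 : E))) :=
    (tendsto_const_nhds (x := u)).inner (mean_zero U u hu φ)
  rw [inner_zero_right] at h1
  refine h1.congr fun M => ?_
  rw [inner_smul_right, inner_sum, div_eq_inv_mul]
  congr 1
  apply Finset.sum_congr rfl
  intro k _
  rw [inner_smul_right, mul_comm]

theorem corr_mean_conj (U : E →ₗᵢ[ℂ] E) (u : E)
    (hu : ∀ (v : E) (z : ℂ), ‖z‖ = 1 → U v = z • v → inner ℂ v u = 0) (φ : ℝ) :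
    Tendsto (fun M : ℕ => (∑ k ∈ range M,
      (starRingEnd ℂ) (inner ℂ u ((U^[k]) u)) * ee (-(φ * k))) / (M : ℂ)) atTop (𝓝 0) := by
  have h1 := (corr_mean U u hu (-φ)).star
  rw [star_zero] at h1
  refine h1.congr fun M => ?_
  rw [Complex.star_def, map_div₀, map_sum, Complex.conj_natCast]
  congr 1
  apply Finset.sum_congr rfl
  intro k _
  rw [map_mul, Pool.Agent.H6.GS2.conj_ee]
  congr 2
  ring

theorem corr_mean_re (U : E →ₗᵢ[ℂ] E) (u : E)
    (hu : ∀ (v : E) (z : ℂ), ‖z‖ = 1 → U v = z • v → inner ℂ v u = 0) (φ : ℝ) :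
    Tendsto (fun M : ℕ => (∑ k ∈ range M,
      (((inner ℂ u ((U^[k]) u)).re : ℝ) : ℂ) * ee (-(φ * k))) / (M : ℂ)) atTop (𝓝 0) := by
  have h1 := ((corr_mean U u hu φ).add (corr_mean_conj U u hu φ)).const_mul (1 / 2 : ℂ)
  rw [add_zero, mul_zero] at h1
  refine h1.congr fun M => ?_
  rw [← add_div, mul_div_assoc', ← Finset.sum_add_distrib, Finset.mul_sum]
  congr 1
  apply Finset.sum_congr rfl
  intro k _
  rw [← add_mul, Complex.add_conj]
  push_cast
  ring

omit [CompleteSpace E] in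
lemma corr_norm (U : E →ₗᵢ[ℂ] E) (u : E) (k : ℕ) :
    ‖inner ℂ u ((U^[k]) u)‖ ≤ ‖u‖ ^ 2 := by
  have h1 : ‖(U^[k]) u‖ = ‖u‖ := by
    induction k with
    | zero => rfl
    | succ k ih => rw [Function.iterate_succ_apply', U.norm_map, ih]
  calc ‖inner ℂ u ((U^[k]) u)‖ ≤ ‖u‖ * ‖(U^[k]) u‖ := norm_inner_le_norm _ _
    _ = ‖u‖ ^ 2 := by rw [h1]; ring

/-- APZ. Almost periodic correlations of a vector orthogonal to the eigenvectors vanish. -/
theorem apz (U : E →ₗᵢ[ℂ] E) (u : E)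
    (hu : ∀ (v : E) (z : ℂ), ‖z‖ = 1 → U v = z • v → inner ℂ v u = 0)
    (hA : ∀ ε : ℝ, 0 < ε → ∃ (R : ℕ) (a : ℕ → ℂ) (φ : ℕ → ℝ), ∀ k : ℕ, 1 ≤ k →
      ‖inner ℂ u ((U^[k]) u) - ∑ r ∈ range R, a r * ee (φ r * k)‖ ≤ ε) :
    ∀ k : ℕ, 1 ≤ k → inner ℂ u ((U^[k]) u) = 0 :=
  apz_gen _ (‖u‖ ^ 2) (corr_norm U u) (corr_mean U u hu) hA

/-- APZ, real parts. -/
theorem apz_re (U : E →ₗᵢ[ℂ] E) (u : E)
    (hu : ∀ (v : E) (z : ℂ), ‖z‖ = 1 → U v = z • v → inner ℂ v u = 0)
    (hA : ∀ ε : ℝ, 0 < ε → ∃ (R : ℕ) (a : ℕ → ℂ) (φ : ℕ → ℝ), ∀ k : ℕ, 1 ≤ k →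
      ‖(((inner ℂ u ((U^[k]) u)).re : ℝ) : ℂ) - ∑ r ∈ range R, a r * ee (φ r * k)‖ ≤ ε) :
    ∀ k : ℕ, 1 ≤ k → (inner ℂ u ((U^[k]) u)).re = 0 := by
  intro k hk
  have h1 := apz_gen (fun k => (((inner ℂ u ((U^[k]) u)).re : ℝ) : ℂ)) (‖u‖ ^ 2) (fun k => by
    rw [Complex.norm_real, Real.norm_eq_abs]
    exact (Complex.abs_re_le_norm _).trans (corr_norm U u k)) (corr_mean_re U u hu) hA k hk
  exact_mod_cast h1

end Hilbert

end Pool.Agent.H6.WN
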